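import Pool.Agent.Helper238.L4.P7

set_option autoImplicit false

namespace Pool.Agent.Results.MP_39fec4_gt.ExplicitQuartic

open MeasureTheory Filter

/-- The quantity `(|x_1|^p + … + |x_n|^p)^(1/p)`. -/
noncomputable def lpNorm (n : ℕ) (p : ℝ) (x : EuclideanSpace ℝ (Fin n)) : ℝ :=
  (∑ j, |x j| ^ p) ^ (1 / p)

/-- The ball `B_p^n`. -/
def lpBall (n : ℕ) (p : ℝ) : Set (EuclideanSpace ℝ (Fin n)) := {x | lpNorm n p x ≤ 1}

/-- The Lebesgue measure of a subset of a finite dimensional Euclidean space `E` (normalised so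
that unit cubes have measure `1`). -/
noncomputable def vol {E : Type*} [NormedAddCommGroup E] [InnerProductSpace ℝ E]
    [FiniteDimensional ℝ E] [MeasurableSpace E] [BorelSpace E] (A : Set E) : ℝ :=
  (volume A).toReal

/-- The section volume `F_{p,n}(a)`: the Lebesgue measure, inside the hyperplane `a^⊥` with its
Euclidean structure, of `B_p^n ∩ a^⊥`. -/
noncomputable def F (p : ℝ) (n : ℕ) (a : EuclideanSpace ℝ (Fin n)) : ℝ :=
  vol {x : ((ℝ ∙ a)ᗮ : Submodule ℝ (EuclideanSpace ℝ (Fin n))) |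
    (x : EuclideanSpace ℝ (Fin n)) ∈ lpBall n p}

/-- The first coordinate direction of `ℝ^(n+1)`. -/
noncomputable def e1 (n : ℕ) : EuclideanSpace ℝ (Fin (n + 1)) := EuclideanSpace.single 0 1

/-- The main diagonal direction of `ℝ^n`. -/
noncomputable def diagDir (n : ℕ) : EuclideanSpace ℝ (Fin n) :=
  WithLp.toLp 2 fun _ => 1 / Real.sqrt n

/-- `a` is a unit vector at which `F_{p,n}` attains its maximum over the unit sphere. -/
def IsMaximiser (p : ℝ) (n : ℕ) (a : EuclideanSpace ℝ (Fin n)) : Prop :=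
  ‖a‖ = 1 ∧ ∀ b : EuclideanSpace ℝ (Fin n), ‖b‖ = 1 → F p n b ≤ F p n a

/-- `a` is one of the `2^n` main diagonal directions `(±1,…,±1)/√n`. -/
def IsMainDiagonal (n : ℕ) (a : EuclideanSpace ℝ (Fin n)) : Prop :=
  ∀ i, |a i| = 1 / Real.sqrt n

/-- `C` bounds the ratio `F_{p,n}(a) / F_{p,n}(e_1)` for all `n ≥ 2` and all unit vectors `a`. -/
def IsBound (p C : ℝ) : Prop :=
  ∀ n : ℕ, 1 ≤ n → ∀ a : EuclideanSpace ℝ (Fin (n + 1)), ‖a‖ = 1 →
    F p (n + 1) a ≤ C * F p (n + 1) (e1 n)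

/-- The ratio `F_{p,n+1}((1,…,1)/√(n+1)) / F_{p,n+1}(e_1)`. -/
noncomputable def diagRatio (p : ℝ) (n : ℕ) : ℝ :=
  F p (n + 1) (diagDir (n + 1)) / F p (n + 1) (e1 n)

/-- The constant `Γ(1/4) / (2^(5/4) Γ(3/4))`. -/
noncomputable def C4 : ℝ := Real.Gamma (1 / 4) / (2 ^ (5 / 4 : ℝ) * Real.Gamma (3 / 4))

lemma diag_eq (n : ℕ) : diagDir n = Agent238.L4.dg n := by
  unfold diagDir Agent238.L4.dg
  simp only [one_div]

lemma mem_ball (n : ℕ) (x : EuclideanSpace ℝ (Fin n)) :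
    x ∈ lpBall n 4 ↔ ∑ i, |x i| ^ (4 : ℝ) ≤ 1 := by
  have hs : 0 ≤ ∑ i, |x i| ^ (4 : ℝ) := Finset.sum_nonneg fun i _ => by positivity
  unfold lpBall lpNorm
  rw [Set.mem_ofPred_eq]
  constructor
  · intro h
    have h2 := Real.rpow_le_rpow (Real.rpow_nonneg hs _) h (by norm_num : (0 : ℝ) ≤ 4)
    rwa [← Real.rpow_mul hs, Real.one_rpow, show (1 / (4 : ℝ) * 4) = 1 by norm_num,
      Real.rpow_one] at h2
  · intro h; exact Real.rpow_le_one hs h (by norm_num)

lemma F_eq {n : ℕ} (hn : 2 ≤ n) {a : EuclideanSpace ℝ (Fin n)} (ha : ‖a‖ = 1) :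
    F 4 n a = (2 * Real.pi)⁻¹ * Agent238.L4.ZZ ^ n / Real.Gamma (((n : ℝ) - 1) / 4 + 1) *
      Agent238.L4.Vf a := by
  rw [← Agent238.L4.section_formula hn ha]
  unfold F vol
  simp_rw [mem_ball]

/-- the positive dimensional constant -/
lemma const_pos {n : ℕ} (hn : 2 ≤ n) :
    0 < (2 * Real.pi)⁻¹ * Agent238.L4.ZZ ^ n / Real.Gamma (((n : ℝ) - 1) / 4 + 1) := by
  have h2 : (2 : ℝ) ≤ n := by exact_mod_cast hn
  have h3 := Real.Gamma_pos_of_pos (s := ((n : ℝ) - 1) / 4 + 1) (by linarith)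
  have h4 := Agent238.L4.ZZ_pos
  have h5 := Real.pi_pos
  positivity

lemma const_val : Agent238.L4.VV * Agent238.L4.ZZ / (2 * Real.pi) =
    Real.Gamma (1 / 4) / (2 ^ (5 / 4 : ℝ) * Real.Gamma (3 / 4)) := by
  have hG1 := Real.Gamma_pos_of_pos (s := 1 / 4) (by norm_num)
  have hG3 := Real.Gamma_pos_of_pos (s := 3 / 4) (by norm_num)
  have hZ := Agent238.L4.ZZ_pos
  have hV := Agent238.L4.VV_pos
  have hpi := Real.pi_pos
  have hm := Agent238.L4.mom_pos 1
  have hm1 : Agent238.L4.mom 1 = Real.Gamma (3 / 4) / Real.Gamma (1 / 4) := by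
    rw [Agent238.L4.mom_eq]; norm_num
  have h2 : (0 : ℝ) < 2 ^ (5 / 4 : ℝ) := by positivity
  have e2 : ((2 : ℝ) ^ (5 / 4 : ℝ)) ^ 2 = 4 * Real.sqrt 2 := by
    rw [← Real.rpow_natCast, ← Real.rpow_mul (by norm_num), Real.sqrt_eq_rpow,
      show (4 : ℝ) = 2 ^ (2 : ℝ) by norm_num, ← Real.rpow_add (by norm_num)]
    norm_num
  have hs : Real.sqrt 2 * Real.sqrt 2 = 2 := Real.mul_self_sqrt (by norm_num)
  have hsp : 0 < Real.sqrt 2 := by positivity
  refine (sq_eq_sq₀ (by positivity) (by positivity)).1 ?_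
  rw [div_pow, mul_pow, div_pow, mul_pow, mul_pow, e2, Agent238.L4.VV_sq]
  have h3 : Agent238.L4.ZZ ^ 2 = Real.pi * Real.sqrt 2 / (4 * Agent238.L4.mom 1) := by
    rw [← Agent238.L4.ZZ_sq]; field_simp
  rw [h3, hm1]
  field_simp
  nlinarith [hs]

/-- **Maximal hyperplane sections of the `ℓ_4`-balls.** -/
theorem result :
    (∀ n : ℕ, 20000 ≤ n → ∀ a, IsMaximiser 4 n a ↔ IsMainDiagonal n a) ∧
    IsBound 4 C4 ∧ Tendsto (diagRatio 4) atTop (nhds C4) := by
  have hZ := Agent238.L4.ZZ_pos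
  have hpi := Real.pi_pos
  have he1 : ∀ n, ‖e1 n‖ = 1 := fun n => by unfold e1; simp
  refine ⟨?_, ?_, ?_⟩
  · intro n hn a
    have hn2 : 2 ≤ n := by omega
    have hc := const_pos hn2
    have hd := Agent238.L4.dg_norm (n := n) (by omega)
    have hle : ∀ b c : EuclideanSpace ℝ (Fin n), ‖b‖ = 1 → ‖c‖ = 1 →
        (F 4 n b ≤ F 4 n c ↔ Agent238.L4.Vf b ≤ Agent238.L4.Vf c) := by
      intro b c hb hc'
      rw [F_eq hn2 hb, F_eq hn2 hc']
      exact mul_le_mul_iff_right₀ hc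
    unfold IsMaximiser IsMainDiagonal
    simp only [one_div]
    constructor
    · rintro ⟨ha, h⟩
      rw [← (Agent238.L4.core_explicit n hn a ha).2]
      exact le_antisymm (Agent238.L4.core_explicit n hn a ha).1 ((hle _ _ hd ha).1 (h _ hd))
    · intro h
      have ha : ‖a‖ = 1 := by
        have h1 := EuclideanSpace.norm_sq_eq a
        have h2 := EuclideanSpace.norm_sq_eq (Agent238.L4.dg n)
        rw [hd] at h2
        have h3 : ∑ i, ‖a i‖ ^ 2 = ∑ i, ‖Agent238.L4.dg n i‖ ^ 2 := by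
          refine Finset.sum_congr rfl fun i _ => ?_
          rw [Real.norm_eq_abs, h i, Real.norm_eq_abs, Agent238.L4.dg_apply, abs_of_nonneg]
          positivity
        rw [h3, ← h2] at h1
        nlinarith [norm_nonneg a]
      refine ⟨ha, fun b hb => ?_⟩
      rw [hle _ _ hb ha, (Agent238.L4.core_explicit n hn a ha).2.2 h]
      exact (Agent238.L4.core_explicit n hn b hb).1
  · intro n hn a ha
    have hn2 : 2 ≤ n + 1 := by omega
    have hc := const_pos hn2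
    rw [F_eq hn2 ha, F_eq hn2 (he1 n), C4, ← const_val]
    have hV := Agent238.L4.Vle ha
    have hs : Agent238.L4.Vf (e1 n) = 2 * Real.pi / Agent238.L4.ZZ := Agent238.L4.Vf_single 0
    rw [hs]
    calc _ ≤ (2 * Real.pi)⁻¹ * Agent238.L4.ZZ ^ (n + 1) /
          Real.Gamma ((((n + 1 : ℕ) : ℝ) - 1) / 4 + 1) * Agent238.L4.VV :=
          mul_le_mul_of_nonneg_left hV hc.le
      _ = _ := by field_simp
  · have hlim : Tendsto (fun n : ℕ => Agent238.L4.Vf (Agent238.L4.dg (n + 1)) /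
        (2 * Real.pi / Agent238.L4.ZZ)) atTop
        (nhds (Agent238.L4.VV / (2 * Real.pi / Agent238.L4.ZZ))) :=
      (Agent238.L4.dg_lim.comp (tendsto_add_atTop_nat 1)).div_const _
    rw [C4, ← const_val]
    have e : Agent238.L4.VV * Agent238.L4.ZZ / (2 * Real.pi) =
        Agent238.L4.VV / (2 * Real.pi / Agent238.L4.ZZ) := by field_simp
    rw [e]
    refine hlim.congr' ?_
    filter_upwards [eventually_ge_atTop 1] with n hn
    have hn2 : 2 ≤ n + 1 := by omega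
    have hc := const_pos hn2
    have hs : Agent238.L4.Vf (e1 n) = 2 * Real.pi / Agent238.L4.ZZ := Agent238.L4.Vf_single 0
    unfold diagRatio
    rw [diag_eq, F_eq hn2 (Agent238.L4.dg_norm (by omega)), F_eq hn2 (he1 n), hs,
      mul_div_mul_left _ _ hc.ne']

end Pool.Agent.Results.MP_39fec4_gt.ExplicitQuartic
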